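import Pool.Agent.W580.SH.StmA

set_option autoImplicit false

namespace Pool.Agent.W414.SH

open Pool.Agent.W580.SH

/-- the seven by seven matrix -/
def U7 : Matrix (Fin 7) (Fin 7) ℝ :=
  !![1, 1, 1, 1, 0, 0, 0;
     0, 0, 1, 1, 0, 0, 0;
     0, 0, 0, 0, 1, 0, 0;
     0, 0, 0, 0, 0, 1, 0;
     0, 0, 0, 0, 0, 0, 1;
     0, -1, -1, 0, 0, 0, 0;
     0, 1, 0, 1, 0, 0, 0]

theorem det_U7 : |U7.det| = 2 := by
  unfold U7
  simp [Matrix.det_succ_row_zero, Fin.sum_univ_succ, Fin.succAbove]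
  norm_num

/-- the five by five matrices -/
noncomputable def U5 (a : Fin 2) (σ τ : ℝ) : Matrix (Fin 5) (Fin 5) ℝ :=
  if a = 0 then
  !![σ, 0, σ, 0, 0;
     0, 0, 0, 1, 1;
     (τ - 1) / 2, 1, -τ, 0, 0;
     (τ + 1) / 2, -1, 0, 0, 0;
     0, 0, 0, 1, -1]
  else
  !![0, 0, 0, 1, 1;
     σ, 0, σ, 0, 0;
     (τ - 1) / 2, 1, -τ, 0, 0;
     (τ + 1) / 2, -1, 0, 0, 0;
     0, 0, 0, 1, -1]

theorem det_U5 (a : Fin 2) (σ τ : ℝ) : |(U5 a σ τ).det| = 4 * |σ * τ| := by
  fin_cases a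
  · have : (U5 0 σ τ).det = 4 * (σ * τ) := by
      unfold U5
      simp [Matrix.det_succ_row_zero, Fin.sum_univ_succ, Fin.succAbove]
      ring
    show |(U5 0 σ τ).det| = _
    rw [this, abs_mul, abs_of_pos (by norm_num : (0 : ℝ) < 4)]
  · have : (U5 1 σ τ).det = -(4 * (σ * τ)) := by
      unfold U5
      simp [Matrix.det_succ_row_zero, Fin.sum_univ_succ, Fin.succAbove]
      ring
    show |(U5 1 σ τ).det| = _
    rw [this, abs_neg, abs_mul, abs_of_pos (by norm_num : (0 : ℝ) < 4)]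

/-- the other pole -/
def oth (a : Fin 2) : Fin 2 := if a = 0 then 1 else 0

section
variable {R : Type}

theorem mn_congr {k : ℕ} {r : Fin k → R} {c c' : Fin k → (R → ℝ)}
    (h : ∀ j a, c j (r a) = c' j (r a)) : mn r c = mn r c' := by
  unfold mn
  congr 1
  ext a b
  simp only [Matrix.of_apply]
  exact h b a

theorem inj_of_mn {k : ℕ} {r : Fin k → R} {c : Fin k → (R → ℝ)} (h : mn r c ≠ 0) :
    Function.Injective r := by
  intro b b' hbb
  by_contra hne
  apply h
  unfold mn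
  apply Matrix.det_zero_of_row_eq hne
  funext j
  simp only [Matrix.of_apply, hbb]

end

theorem main (hL : S_LIN) (hB : S_BLK) (hM : S_MINOR) (h1 : S_AB1) : S_AB7 := by
  intro R _ _ S t f v κ a0 hc z hz a σ τ hPT hpar hind
  have hinj : Function.Injective κ := inj_of_mn hc.c.det
  obtain ⟨hσ, hτ, -⟩ := hPT 0
  have hσR : (σ : ℝ) = 1 ∨ (σ : ℝ) = -1 := by
    rcases hσ with h | h <;> rw [h] <;> simp
  have hτR : (τ : ℝ) = 1 ∨ (τ : ℝ) = -1 := by
    rcases hτ with h | h <;> rw [h] <;> simp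
  set i := κ a0 with hi
  set e : R → ℝ := Pi.single i 1 with he
  set ε := z 0 - z 1 with hε
  set ρ := z 2 - z 0 with hρ
  -- integrality
  have hint : ∀ j k r, ∃ n : ℤ, z j r - z k r = n := by
    intro j k r
    by_cases hr : r = i
    · rw [hr, (hz j).1, (hz k).1]
      exact ⟨0, by simp⟩
    · obtain ⟨n, hn⟩ := hc.c.co.2 _ (hz j).2.1 r
      obtain ⟨n', hn'⟩ := hc.c.co.2 _ (hz k).2.1 r
      rw [Function.update_of_ne hr] at hn hn'
      exact ⟨n - n', by rw [hn, hn']; push_cast; ring⟩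
  -- the small minor
  obtain ⟨r, hr⟩ := (hM R 2 ![ε, ρ]).1 hind
  have hm1 : 1 ≤ |mn r ![ε, ρ]| := by
    have : ∃ n : ℤ, mn r ![ε, ρ] = n := by
      obtain ⟨n1, h1⟩ := hint 0 1 (r 0)
      obtain ⟨n2, h2⟩ := hint 0 1 (r 1)
      obtain ⟨n3, h3⟩ := hint 2 0 (r 0)
      obtain ⟨n4, h4⟩ := hint 2 0 (r 1)
      refine ⟨n1 * n4 - n3 * n2, ?_⟩
      unfold mn
      rw [Matrix.det_fin_two]
      simp only [Matrix.of_apply, Matrix.cons_val_zero, Matrix.cons_val_one, hε, hρ, Pi.sub_apply]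
      rw [h1, h2, h3, h4]
      push_cast
      ring
    obtain ⟨n, hn⟩ := this
    rw [hn] at hr ⊢
    have : n ≠ 0 := by
      rintro rfl
      simp at hr
    have h3 : 1 ≤ |n| := Int.one_le_abs this
    exact_mod_cast h3
  -- the vectors
  set y : R → ℝ := z 0 - (1 / 2 : ℝ) • e with hy
  set q1 : R → ℝ := (σ : ℝ) • f a + (-(τ : ℝ)) • v 0 with hq1
  set q2 : R → ℝ := (1 : ℝ) • f (oth a) + (1 : ℝ) • v 2 with hq2
  set q3 : R → ℝ := (1 : ℝ) • f (oth a) + (-1 : ℝ) • v 2 with hq3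
  have hq1S : q1 ∈ S := hc.c.qs a 0 σ (-τ) hσR (by rcases hτR with h | h <;> rw [h] <;> simp)
  have hq2S : q2 ∈ S := hc.c.qs (oth a) 2 1 1 (Or.inl rfl) (Or.inl rfl)
  have hq3S : q3 ∈ S := hc.c.qs (oth a) 2 1 (-1) (Or.inl rfl) (Or.inr rfl)
  have hdn : ∀ j, z j - (1 / 2 : ℝ) • e ∈ S := by
    intro j
    have h2 := (hz j).2.2
    convert h2 using 1
    funext s
    by_cases hs : s = i
    · rw [hs, Function.update_self]
      simp only [Pi.sub_apply, Pi.smul_apply, he, Pi.single_eq_same, smul_eq_mul, (hz j).1]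
      norm_num
    · rw [Function.update_of_ne hs]
      simp only [Pi.sub_apply, Pi.smul_apply, he, Pi.single_eq_of_ne hs, smul_eq_mul]
      ring
  have hup : ∀ j, z j + (1 / 2 : ℝ) • e ∈ S := by
    intro j
    have h2 := (hz j).2.1
    convert h2 using 1
    funext s
    by_cases hs : s = i
    · rw [hs, Function.update_self]
      simp only [Pi.add_apply, Pi.smul_apply, he, Pi.single_eq_same, smul_eq_mul, (hz j).1]
      norm_num
    · rw [Function.update_of_ne hs]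
      simp only [Pi.add_apply, Pi.smul_apply, he, Pi.single_eq_of_ne hs, smul_eq_mul]
      ring
  -- the vectors `ε`, `ρ` vanish on `κ`
  have hvan : ∀ (b : Fin 2) (a' : Fin 5), (![ε, ρ] : Fin 2 → (R → ℝ)) b (κ a') = 0 := by
    have hsame : ∀ j k a', z j (κ a') - z k (κ a') = 0 := by
      intro j k a'
      rw [(hPT j).2.2 a', (hPT k).2.2 a', sub_self]
    intro b a'
    fin_cases b
    · exact hsame 0 1 a'
    · exact hsame 2 0 a'
  have hblk := hB R 5 2 κ r ![y, e, q1, q2, q3] ![ε, ρ] hvan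
  -- the five by five minor
  have he5 : ∀ b, e (κ b) = v 0 (κ b) - v 1 (κ b) := by
    intro b
    rw [hc.e b, he, Pi.single_apply, hi]
    by_cases h : b = a0
    · rw [if_pos h, if_pos (by rw [h])]
    · rw [if_neg h, if_neg fun h' => h (hinj h')]
  have hz5 : ∀ b, z 0 (κ b) = (σ : ℝ) * f a (κ b) + (τ : ℝ) / 2 * (v 0 (κ b) + v 1 (κ b)) :=
    (hPT 0).2.2
  have hmn5 : |mn κ ![y, e, q1, q2, q3]| = 1 := by
    have h2 : mn κ ![y, e, q1, q2, q3] =
        mn κ (fun b => ∑ k, (U5 a σ τ) k b • fv f v k) := by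
      apply mn_congr
      intro j b
      rw [Finset.sum_apply, Fin.sum_univ_five]
      simp only [Pi.smul_apply, smul_eq_mul]
      fin_cases a <;> fin_cases j <;>
        simp [U5, fv, y, q1, q2, q3, oth, he5, hz5] <;> ring
    rw [h2, hL, abs_mul, det_U5, h1 R S t f v κ hc.c, abs_mul]
    have e1 : |(σ : ℝ)| = 1 := by rcases hσR with h | h <;> rw [h] <;> simp
    have e2 : |(τ : ℝ)| = 1 := by rcases hτR with h | h <;> rw [h] <;> simp
    rw [e1, e2]
    norm_num
  -- the seven by seven minor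
  have happ : (Fin.append ![y, e, q1, q2, q3] ![ε, ρ] : Fin 7 → (R → ℝ)) =
      ![y, e, q1, q2, q3, ε, ρ] := by
    funext j
    fin_cases j <;> rfl
  have hz3 : z 3 = z 2 - ε := by
    rw [hpar]; abel
  have hS : ∀ b, (∑ k, U7 k b • (Fin.append ![y, e, q1, q2, q3] ![ε, ρ] : Fin 7 → (R → ℝ)) k) ∈ S := by
    intro b
    rw [happ]
    fin_cases b
    · convert hdn 0 using 1
      funext s
      simp [Fin.sum_univ_succ, U7, y]
    · convert hdn 3 using 1
      funext s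
      simp [Fin.sum_univ_succ, U7, y, hz3, ρ]
      ring
    · convert hup 1 using 1
      funext s
      simp [Fin.sum_univ_succ, U7, y, ε]
      ring
    · convert hup 2 using 1
      funext s
      simp [Fin.sum_univ_succ, U7, y, ρ]
      ring
    · convert hq1S using 1
      simp [Fin.sum_univ_succ, U7]
    · convert hq2S using 1
      simp [Fin.sum_univ_succ, U7]
    · convert hq3S using 1
      simp [Fin.sum_univ_succ, U7]
  have hts := hc.c.ts 7 (Fin.append κ r) _ hS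
  rw [hL R 7 (Fin.append κ r) (Fin.append ![y, e, q1, q2, q3] ![ε, ρ]) U7, hblk, abs_mul, abs_mul,
    hmn5, det_U7] at hts
  linarith

end Pool.Agent.W414.SH
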